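import Pool.Agent.Helper99.SZ.Stmts2

set_option autoImplicit false

namespace Pool.Helper99.SZ

open NumberField

theorem cmb_arith (v K Lc t A Mb s q : ℕ) (hv : 1 ≤ v) (hK : 1 ≤ K) (hL : 32 * v ≤ Lc)
    (ht : 16 * v * t ≤ A * Lc * Lc * K) (hS : K * Mb ≤ v * A) (hs : A * Lc ≤ 2 * s)
    (hcs : s ^ 2 ≤ Mb * q) : 2 * t + 2 * K * s + s ≤ q := by
  rcases Nat.eq_zero_or_pos s with h0 | h0
  · subst h0
    have h1 : A * Lc = 0 := by omega
    have h2 : 16 * v * t = 0 := by
      rw [h1] at ht
      simpa using ht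
    have h3 : t = 0 := by
      rcases Nat.eq_zero_or_pos t with h | h
      · exact h
      · have : 0 < 16 * v * t := by positivity
        omega
    subst h3
    omega
  · -- 2 v q ≥ K Lc s
    have h1 : K * Mb * Lc ≤ 2 * v * s := by
      calc K * Mb * Lc ≤ v * A * Lc := Nat.mul_le_mul_right _ hS
        _ = v * (A * Lc) := by ring
        _ ≤ v * (2 * s) := Nat.mul_le_mul_left _ hs
        _ = 2 * v * s := by ring
    have h2 : K * Lc * s * s ≤ 2 * v * q * s := by
      calc K * Lc * s * s = K * Lc * s ^ 2 := by ring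
        _ ≤ K * Lc * (Mb * q) := Nat.mul_le_mul_left _ hcs
        _ = (K * Mb * Lc) * q := by ring
        _ ≤ (2 * v * s) * q := Nat.mul_le_mul_right _ h1
        _ = 2 * v * q * s := by ring
    have h3 : K * Lc * s ≤ 2 * v * q := Nat.le_of_mul_le_mul_right h2 h0
    have h4 : 8 * v * t ≤ K * Lc * s := by
      have : 16 * v * t ≤ 2 * (K * Lc * s) := by
        calc 16 * v * t ≤ A * Lc * Lc * K := ht
          _ = (A * Lc) * (Lc * K) := by ring
          _ ≤ (2 * s) * (Lc * K) := Nat.mul_le_mul_right _ hs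
          _ = 2 * (K * Lc * s) := by ring
      have e : 16 * v * t = 2 * (8 * v * t) := by ring
      omega
    have h5 : 4 * v * (2 * K * s + s) ≤ K * Lc * s := by
      calc 4 * v * (2 * K * s + s) = 4 * v * (2 * K + 1) * s := by ring
        _ ≤ 4 * v * (3 * K) * s := by
            apply Nat.mul_le_mul_right
            apply Nat.mul_le_mul_left
            omega
        _ = 12 * v * (K * s) := by ring
        _ ≤ 32 * v * (K * s) := Nat.mul_le_mul_right _ (by omega)
        _ ≤ Lc * (K * s) := Nat.mul_le_mul_right _ hL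
        _ = K * Lc * s := by ring
    have h6 : 4 * v * (2 * t + 2 * K * s + s) ≤ 4 * v * q := by
      have e1 : 4 * v * (2 * t + 2 * K * s + s) = 8 * v * t + 4 * v * (2 * K * s + s) := by ring
      have e2 : 4 * v * q = 2 * (2 * v * q) := by ring
      omega
    exact Nat.le_of_mul_le_mul_left h6 (by positivity)

theorem st_CMB (hSIM : ST_SIM) : ST_CMB := by
  intro v K Lc t j1 hK hL ht n' hn
  have hv : 1 ≤ v := by
    have := j1.2
    omega
  have hS := hSIM v K j1
  rw [Fintype.card_prod, Fintype.card_fin] at ht hn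
  have hcs : (∑ b, n' b) ^ 2 ≤ Fintype.card (Sb v K j1) * ∑ b, n' b ^ 2 := by
    have := sq_sum_le_card_mul_sum_sq (s := (Finset.univ : Finset (Sb v K j1))) (f := n')
    rwa [Finset.card_univ] at this
  have hq : ∑ b, n' b * (n' b - 1) + ∑ b, n' b = ∑ b, n' b ^ 2 := by
    rw [← Finset.sum_add_distrib]
    apply Finset.sum_congr rfl
    intro b _
    rcases Nat.eq_zero_or_pos (n' b) with h | h
    · rw [h]; rfl
    · obtain ⟨m, hm⟩ : ∃ m, n' b = m + 1 := ⟨n' b - 1, by omega⟩
      rw [hm, Nat.add_sub_cancel]; ring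
  have := cmb_arith v K Lc t (Fintype.card (Sx v K)) (Fintype.card (Sb v K j1)) (∑ b, n' b)
    (∑ b, n' b ^ 2) hv hK hL ht hS hn hcs
  omega

end Pool.Helper99.SZ
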