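import Pool.Agent.Helper99.SZ.Stmts2

set_option autoImplicit false

namespace Pool.Helper99.SZ

open NumberField

theorem eng_fiber {Q : Type} [AddCommGroup Q] [DecidableEq Q] {G : Type} [DecidableEq G] (S : Finset G)
    (π : G → Q) (q : Q) :
    ((S ×ˢ S).filter (fun z => π z.1 - π z.2 = q)).card ≤
      ((S ×ˢ S).filter (fun z => π z.1 = π z.2)).card := by
  classical
  obtain ⟨N, hN⟩ : ∃ N : Q → ℕ, ∀ c, N c = (S.filter (fun y => π y = c)).card := ⟨_, fun _ => rfl⟩
  have h1 : ((S ×ˢ S).filter (fun z => π z.1 - π z.2 = q)).card = ∑ c ∈ S.image π, N c * N (c - q) := by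
    rw [Finset.card_filter, Finset.sum_product]
    have e1 : ∀ x ∈ S, (∑ y ∈ S, if π x - π y = q then 1 else 0) = N (π x - q) := by
      intro x _
      rw [hN, Finset.card_filter]
      apply Finset.sum_congr rfl
      intro y _
      have : (π x - π y = q) ↔ (π y = π x - q) := by
        constructor
        · intro h; rw [← h]; abel
        · intro h; rw [h]; abel
      simp only [this]
    rw [Finset.sum_congr rfl e1, Finset.sum_comp (fun c => N (c - q)) π]
    apply Finset.sum_congr rfl
    intro c _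
    rw [hN c, smul_eq_mul]
  have h2 : ((S ×ˢ S).filter (fun z => π z.1 = π z.2)).card = ∑ c ∈ S.image π, N c * N c := by
    rw [Finset.card_filter, Finset.sum_product]
    have e1 : ∀ x ∈ S, (∑ y ∈ S, if π x = π y then 1 else 0) = N (π x) := by
      intro x _
      rw [hN, Finset.card_filter]
      apply Finset.sum_congr rfl
      intro y _
      simp only [eq_comm]
    rw [Finset.sum_congr rfl e1, Finset.sum_comp N π]
    apply Finset.sum_congr rfl
    intro c _
    rw [hN c, smul_eq_mul]
  have h3 : ∑ c ∈ S.image π, N (c - q) * N (c - q) ≤ ∑ c ∈ S.image π, N c * N c := by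
    have e2 : ∑ c ∈ S.image π, N (c - q) * N (c - q) =
        ∑ c ∈ (S.image π).image (fun c => c - q), N c * N c := by
      symm
      apply Finset.sum_image (s := S.image π) (g := fun c => c - q) (f := fun c => N c * N c)
      intro a _ b _ hab
      exact sub_left_injective hab
    rw [e2]
    apply Finset.sum_le_sum_of_ne_zero
    intro c _ hc
    have h4 : N c ≠ 0 := fun h => hc (by rw [h, mul_zero])
    rw [hN] at h4
    obtain ⟨y, hy⟩ := Finset.card_ne_zero.1 h4
    rw [Finset.mem_filter] at hy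
    rw [Finset.mem_image]
    exact ⟨y, hy.1, hy.2⟩
  rw [h1, h2]
  have h5 : ∀ c ∈ S.image π, 2 * (N c * N (c - q)) ≤ N c * N c + N (c - q) * N (c - q) := by
    intro c _
    have := two_mul_le_add_sq (N c) (N (c - q))
    nlinarith [this]
  have h6 := Finset.sum_le_sum h5
  rw [Finset.sum_add_distrib, ← Finset.mul_sum] at h6
  omega

theorem st_ENG : ST_ENG := by
  classical
  intro G _ _ S GV H hH M hM
  have e1 : {z : G × G | z.1 ∈ S ∧ z.2 ∈ S ∧ z.1 - z.2 ∈ GV} =
      ((S ×ˢ S).filter (fun z => z.1 - z.2 ∈ GV) : Finset (G × G)) := by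
    ext z; simp [and_assoc]
  have e2 : {z : G × G | z.1 ∈ S ∧ z.2 ∈ S ∧ z.1 - z.2 ∈ H} =
      ((S ×ˢ S).filter (fun z => z.1 - z.2 ∈ H) : Finset (G × G)) := by
    ext z; simp [and_assoc]
  rw [e1, e2, Set.ncard_coe_finset, Set.ncard_coe_finset]
  obtain ⟨PV, hPV⟩ : ∃ PV : Finset (G × G), PV = (S ×ˢ S).filter (fun z => z.1 - z.2 ∈ GV) := ⟨_, rfl⟩
  rw [← hPV]
  let π : G →+ G ⧸ H := QuotientAddGroup.mk' H
  have hπ : ∀ x y : G, π x = π y ↔ x - y ∈ H := by
    intro x y
    have : π x = π y ↔ -x + y ∈ H := QuotientAddGroup.eq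
    rw [this]
    constructor
    · intro h
      have := H.neg_mem h
      rwa [neg_add, neg_neg, ← sub_eq_add_neg] at this
    · intro h
      have := H.neg_mem h
      rwa [neg_sub, sub_eq_neg_add] at this
  obtain ⟨Q, hQ⟩ : ∃ Q : Finset (G ⧸ H), Q = PV.image (fun z => π (z.1 - z.2)) := ⟨_, rfl⟩
  have hch : ∀ q ∈ Q, ∃ z ∈ PV, π (z.1 - z.2) = q := by
    intro q hq
    rw [hQ, Finset.mem_image] at hq
    exact hq
  choose! zz hzz hzq using hch
  -- the set of representatives
  have hQM : Q.card ≤ M := by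
    have h1 : (Q.image (fun q => (zz q).1 - (zz q).2)).card = Q.card := by
      apply Finset.card_image_of_injOn
      intro a ha b hb hab
      have := congrArg π hab
      simp only at this
      rw [hzq a ha, hzq b hb] at this
      exact this
    rw [← h1]
    apply hM
    · intro a ha
      rw [Finset.mem_image] at ha
      obtain ⟨q, hq, rfl⟩ := ha
      have h2 := hzz q hq
      rw [hPV, Finset.mem_filter, Finset.mem_product] at h2
      exact ⟨h2.2, (zz q).1, h2.1.1, (zz q).2, h2.1.2, rfl⟩
    · intro a ha b hb hab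
      rw [Finset.mem_image] at ha hb
      obtain ⟨q, hq, rfl⟩ := ha
      obtain ⟨r, hr, rfl⟩ := hb
      have h3 := (hπ _ _).2 hab
      rw [hzq q hq, hzq r hr] at h3
      rw [h3]
  have hsum : PV.card = ∑ q ∈ Q, (PV.filter (fun z => π (z.1 - z.2) = q)).card := by
    apply Finset.card_eq_sum_card_fiberwise
    intro z hz
    rw [hQ]
    exact Finset.mem_coe.2 (Finset.mem_image_of_mem _ hz)
  have hfib : ∀ q ∈ Q, (PV.filter (fun z => π (z.1 - z.2) = q)).card ≤
      ((S ×ˢ S).filter (fun z => z.1 - z.2 ∈ H)).card := by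
    intro q _
    have h4 := eng_fiber S π q
    have h5 : (PV.filter (fun z => π (z.1 - z.2) = q)) ⊆ (S ×ˢ S).filter (fun z => π z.1 - π z.2 = q) := by
      intro z hz
      rw [Finset.mem_filter, hPV, Finset.mem_filter] at hz
      rw [Finset.mem_filter]
      exact ⟨hz.1.1, by rw [← map_sub]; exact hz.2⟩
    have h6 : (S ×ˢ S).filter (fun z => π z.1 = π z.2) = (S ×ˢ S).filter (fun z => z.1 - z.2 ∈ H) := by
      apply Finset.filter_congr
      intro z _
      exact hπ _ _
    rw [h6] at h4
    exact (Finset.card_le_card h5).trans h4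
  rw [hsum]
  refine (Finset.sum_le_card_nsmul _ _ _ hfib).trans ?_
  rw [smul_eq_mul]
  exact Nat.mul_le_mul_right _ hQM

end Pool.Helper99.SZ
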