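import Pool.Agent.Helper99.SZ.Stmts2

set_option autoImplicit false

namespace Pool.Helper99.SZ

open NumberField

/-- numerical part -/
theorem pm2_num (n : ℕ) (D : ℝ) (X U ℓ Θ K Lc : ℝ) (hD : 1 ≤ D) (hX : 1 ≤ X) (hℓ : 1 ≤ ℓ)
    (hΘ : Θ = 10 ^ 9 * ((n : ℝ) + 1) ^ 4 * D ^ 2 * ℓ) (hU : U = 8 * ((n : ℝ) + 1) * X * Θ ^ n)
    (hK0 : 0 ≤ K) (hL0 : 0 ≤ Lc) (hK : K ≤ 2000 * ((n : ℝ) + 1) * D * U + 1)
    (hL : Lc ≤ 1000 * ((n : ℝ) + 1) * D * ℓ + 1) :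
    1 ≤ Θ ∧ 8 * ((n : ℝ) + 1) ≤ U ∧ K + 1 ≤ 2002 * ((n : ℝ) + 1) * D * U ∧
    4 * ((n : ℝ) + 1) * K * Lc ≤ Θ * (2 * X * Θ ^ n) ∧
    K * Lc * ℓ + 3 * D * U ≤ X * Θ ^ (n + 2) := by
  obtain ⟨N, hN⟩ : ∃ N : ℝ, N = (n : ℝ) + 1 := ⟨_, rfl⟩
  have hN1 : 1 ≤ N := by rw [hN]; linarith [(Nat.cast_nonneg n : (0 : ℝ) ≤ n)]
  rw [← hN] at hΘ hU hK hL ⊢
  have hN4 : 1 ≤ N ^ 4 := one_le_pow₀ hN1
  have hD2 : 1 ≤ D ^ 2 := one_le_pow₀ hD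
  have hND : 1 ≤ N ^ 4 * D ^ 2 * ℓ := by
    have h1 : 1 ≤ N ^ 4 * D ^ 2 := one_le_mul_of_one_le_of_one_le hN4 hD2
    exact one_le_mul_of_one_le_of_one_le h1 hℓ
  have hΘ1 : 1 ≤ Θ := by rw [hΘ]; linarith
  have hΘn : 1 ≤ Θ ^ n := one_le_pow₀ hΘ1
  have hXΘ : 1 ≤ X * Θ ^ n := one_le_mul_of_one_le_of_one_le hX hΘn
  have hU8 : 8 * N ≤ U := by
    rw [hU]
    have := mul_le_mul_of_nonneg_left hXΘ (show 0 ≤ 8 * N by linarith)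
    linarith
  have hU1 : 1 ≤ U := by linarith
  have hNDU : 1 ≤ N * D * U :=
    one_le_mul_of_one_le_of_one_le (one_le_mul_of_one_le_of_one_le hN1 hD) hU1
  have hNDl : 1 ≤ N * D * ℓ :=
    one_le_mul_of_one_le_of_one_le (one_le_mul_of_one_le_of_one_le hN1 hD) hℓ
  have hK2 : K ≤ 2001 * (N * D * U) := by linarith
  have hL2 : Lc ≤ 1001 * (N * D * ℓ) := by linarith
  have hKL : K * Lc ≤ 2001 * (N * D * U) * (1001 * (N * D * ℓ)) :=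
    mul_le_mul hK2 hL2 hL0 (by linarith)
  refine ⟨hΘ1, hU8, by linarith, ?_, ?_⟩
  · have h1 : 4 * N * K * Lc = 4 * N * (K * Lc) := by ring
    have h2 := mul_le_mul_of_nonneg_left hKL (show 0 ≤ 4 * N by linarith)
    rw [h1]
    refine h2.trans ?_
    have h3 : 4 * N * (2001 * (N * D * U) * (1001 * (N * D * ℓ))) =
        64096032 * ((N ^ 4 * D ^ 2 * ℓ) * (X * Θ ^ n)) := by rw [hU]; ring
    have h4 : Θ * (2 * X * Θ ^ n) = 2 * 10 ^ 9 * ((N ^ 4 * D ^ 2 * ℓ) * (X * Θ ^ n)) := by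
      nth_rewrite 1 [hΘ]; ring
    rw [h3, h4]
    have h5 : 0 ≤ (N ^ 4 * D ^ 2 * ℓ) * (X * Θ ^ n) := mul_nonneg (by linarith) (by linarith)
    linarith
  · have h1 : K * Lc * ℓ ≤ 2001 * (N * D * U) * (1001 * (N * D * ℓ)) * ℓ :=
      mul_le_mul_of_nonneg_right hKL (by linarith)
    have h2 : 2001 * (N * D * U) * (1001 * (N * D * ℓ)) * ℓ =
        16024008 * ((N ^ 3 * D ^ 2 * ℓ ^ 2) * (X * Θ ^ n)) := by rw [hU]; ring
    have h3 : 3 * D * U = 24 * ((N * D) * (X * Θ ^ n)) := by rw [hU]; ring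
    have h4 : X * Θ ^ (n + 2) = 10 ^ 18 * ((N ^ 8 * D ^ 4 * ℓ ^ 2) * (X * Θ ^ n)) := by
      have : X * Θ ^ (n + 2) = Θ ^ 2 * (X * Θ ^ n) := by ring
      rw [this]
      nth_rewrite 1 [hΘ]; ring
    have hp : 0 ≤ X * Θ ^ n := by linarith
    have hN0 : 0 ≤ N := by linarith
    have hD0 : 0 ≤ D := by linarith
    have hl0 : 0 ≤ ℓ := by linarith
    have a1 : N ^ 3 * D ^ 2 * ℓ ^ 2 ≤ N ^ 8 * D ^ 4 * ℓ ^ 2 := by
      apply mul_le_mul_of_nonneg_right _ (by positivity)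
      exact mul_le_mul (pow_le_pow_right₀ hN1 (by norm_num)) (pow_le_pow_right₀ hD (by norm_num))
        (by positivity) (by positivity)
    have a2 : N * D ≤ N ^ 8 * D ^ 4 * ℓ ^ 2 := by
      have b1 : N * D ≤ N ^ 8 * D ^ 4 :=
        mul_le_mul (le_self_pow₀ hN1 (by norm_num)) (le_self_pow₀ hD (by norm_num)) hD0 (by positivity)
      exact b1.trans (le_mul_of_one_le_right (by positivity) (one_le_pow₀ hℓ))
    have c1 := mul_le_mul_of_nonneg_right a1 hp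
    have c2 := mul_le_mul_of_nonneg_right a2 hp
    have c3 : 0 ≤ (N ^ 8 * D ^ 4 * ℓ ^ 2) * (X * Θ ^ n) := by positivity
    rw [h4]
    rw [h2] at h1
    rw [h3]
    linarith

theorem st_PM2 (hRC : ST_RC2) : ST_PM2 := by
  intro n D hD L _ _ hfr P p g0 g nrm X U Z ℓ Θ T hΘ hX hℓ hU hUZ hZ hp hDl hPD hOD hcount
  have hD1 : (1 : ℝ) ≤ (D : ℝ) := by exact_mod_cast hD
  obtain ⟨K, hKd⟩ : ∃ K : ℕ, K = ⌈2000 * ((n : ℝ) + 1) * D * U⌉₊ := ⟨_, rfl⟩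
  obtain ⟨Lc, hLd⟩ : ∃ Lc : ℕ, Lc = ⌈1000 * ((n : ℝ) + 1) * D * ℓ⌉₊ := ⟨_, rfl⟩
  have hN0 : 0 ≤ (n : ℝ) + 1 := by positivity
  have hΘ0 : 0 ≤ Θ := by rw [hΘ]; positivity
  have hU0 : 0 ≤ U := by rw [hU]; positivity
  have hK1 : 2000 * ((n : ℝ) + 1) * D * U ≤ K := by rw [hKd]; exact Nat.le_ceil _
  have hL1 : 1000 * ((n : ℝ) + 1) * D * ℓ ≤ Lc := by rw [hLd]; exact Nat.le_ceil _
  have hK2 : (K : ℝ) ≤ 2000 * ((n : ℝ) + 1) * D * U + 1 := by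
    rw [hKd]; exact (Nat.ceil_lt_add_one (by positivity)).le
  have hL2 : (Lc : ℝ) ≤ 1000 * ((n : ℝ) + 1) * D * ℓ + 1 := by
    rw [hLd]; exact (Nat.ceil_lt_add_one (by positivity)).le
  obtain ⟨hΘ1, hU8, hK3, hG, hfin⟩ := pm2_num n D X U ℓ Θ K Lc hD1 hX hℓ hΘ hU (Nat.cast_nonneg _)
    (Nat.cast_nonneg _) hK2 hL2
  have hN1 : 1 ≤ (n : ℝ) + 1 := by linarith [(Nat.cast_nonneg n : (0 : ℝ) ≤ n)]
  have hU1 : 1 ≤ U := by linarith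
  have hΘn : 1 ≤ Θ ^ n := one_le_pow₀ hΘ1
  have hXΘ : 1 ≤ X * Θ ^ n := one_le_mul_of_one_le_of_one_le hX hΘn
  obtain ⟨ρ, hρ⟩ : ∃ ρ : ℝ, ρ = 2 * X * Θ ^ n := ⟨_, rfl⟩
  have hρ1 : 1 ≤ ρ := by rw [hρ]; linarith
  have hUρ : U = 4 * ((n : ℝ) + 1) * ρ := by rw [hU, hρ]; ring
  have hXρ : X ≤ ρ := by
    rw [hρ]
    have := mul_le_mul_of_nonneg_left hΘn (show 0 ≤ 2 * X by linarith)
    linarith
  have hρU : ρ ≤ U := by
    rw [hUρ]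
    have := mul_le_mul_of_nonneg_right hN1 (show 0 ≤ ρ by linarith)
    linarith
  have hlogU : Real.log U ≤ ℓ := (Real.log_le_log (by linarith) hUZ).trans hZ
  have hlogK : Real.log ((K : ℝ) + 1) ≤ 1000 * ℓ := by
    have h1 : Real.log ((K : ℝ) + 1) ≤ Real.log (2002 * ((n : ℝ) + 1) * D * U) :=
      Real.log_le_log (by positivity) hK3
    have h2 : Real.log (2002 * ((n : ℝ) + 1) * D * U) =
        Real.log 2002 + Real.log ((n : ℝ) + 1) + Real.log D + Real.log U := by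
      rw [Real.log_mul (by positivity) (by positivity), Real.log_mul (by positivity) (by positivity),
        Real.log_mul (by positivity) (by positivity)]
    have h3 : Real.log ((n : ℝ) + 1) ≤ Real.log U := Real.log_le_log (by linarith) (by linarith)
    have h4 : Real.log 2002 ≤ 11 := by
      have h5 : Real.log 2002 ≤ Real.log ((2 : ℝ) ^ 11) := Real.log_le_log (by norm_num) (by norm_num)
      rw [Real.log_pow] at h5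
      have h6 : Real.log 2 ≤ 1 := by linarith [Real.log_two_lt_d9]
      push_cast at h5
      linarith
    linarith
  have hmain := hRC n D hD L hfr P p g0 g nrm U Z ℓ ρ T hρ1 (by rw [hUρ]) (hU1.trans hUZ) hℓ hZ hp hPD hOD K Lc
    hK1 hL1 hlogK n ⊤ (by rw [finrank_top, Module.finrank_fin_fun]) ?_
  · exact hmain.trans hfin
  · have hset : {z : (ℤ × (Fin n → ℤ)) × (ℤ × (Fin n → ℤ)) | nrm z.1 ≤ ρ ∧ nrm z.2 ≤ ρ ∧
          (fun i => (((z.1 - z.2).2 i : ℤ) : ℚ)) ∈ (⊤ : Submodule ℚ (Fin n → ℚ))} =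
        {a : ℤ × (Fin n → ℤ) | nrm a ≤ ρ} ×ˢ {a : ℤ × (Fin n → ℤ) | nrm a ≤ ρ} := by
      ext z
      simp
    rw [hset, Set.ncard_prod]
    obtain ⟨S, hS⟩ : ∃ S : ℕ, S = {a : ℤ × (Fin n → ℤ) | nrm a ≤ ρ}.ncard := ⟨_, rfl⟩
    have hc := hcount ρ hXρ hρU
    rw [← hS] at hc ⊢
    push_cast
    apply mul_le_mul_of_nonneg_right _ (Nat.cast_nonneg _)
    have hG' : 4 * ((n : ℝ) + 1) * K * Lc ≤ Θ * ρ := by rw [hρ]; exact hG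
    have h1 : (4 * ((n : ℝ) + 1) * K * Lc) ^ n ≤ (Θ * ρ) ^ n := pow_le_pow_left₀ (by positivity) hG' n
    have h2 : ρ ^ (n + 1) = X * (2 * (Θ * ρ) ^ n) := by
      have : ρ ^ (n + 1) = ρ ^ n * ρ := pow_succ _ _
      rw [this]
      nth_rewrite 2 [hρ]
      rw [mul_pow]; ring
    rw [h2] at hc
    have h3 : 2 * (Θ * ρ) ^ n ≤ (S : ℝ) := le_of_mul_le_mul_left hc (by linarith)
    linarith

end Pool.Helper99.SZ
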