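import Pool.Agent.Helper99.SZ.Stmts2

set_option autoImplicit false

namespace Pool.Helper99.SZ

open NumberField

/-- sum of the coordinates -/
def simS {v K : ℕ} (k : Fin v → Fin (K + 1)) : ℕ := ∑ i, (k i : ℕ)

theorem simS_update {v K : ℕ} (k : Fin v → Fin (K + 1)) (j : Fin v) (c : Fin (K + 1)) :
    simS (Function.update k j c) + (k j : ℕ) = simS k + (c : ℕ) := by
  unfold simS
  rw [← Finset.add_sum_erase _ _ (Finset.mem_univ j), ← Finset.add_sum_erase _ (fun i => ((k i : Fin (K + 1)) : ℕ)) (Finset.mem_univ j)]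
  have : ∑ x ∈ Finset.univ.erase j, ((Function.update k j c x : Fin (K + 1)) : ℕ) =
      ∑ x ∈ Finset.univ.erase j, ((k x : Fin (K + 1)) : ℕ) := by
    apply Finset.sum_congr rfl
    intro x hx
    rw [Function.update_of_ne (Finset.ne_of_mem_erase hx)]
  rw [this, Function.update_self]
  omega

/-- the involution -/
def simF {v K : ℕ} {j1 : Fin v} (j : Fin v) (hj : j ≠ j1) (b : Sb v K j1) : Sb v K j1 :=
  ⟨Function.update b.1 j ⟨K - simS b.1, by omega⟩, by
    constructor
    · rw [Function.update_of_ne (Ne.symm hj)]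
      exact b.2.1
    · have h1 := simS_update b.1 j ⟨K - simS b.1, by omega⟩
      have h2 : simS b.1 ≤ K := b.2.2
      change simS _ ≤ K
      simp only at h1
      omega⟩

theorem simF_S {v K : ℕ} {j1 : Fin v} (j : Fin v) (hj : j ≠ j1) (b : Sb v K j1) :
    K - simS (simF j hj b).1 = (b.1 j : ℕ) := by
  have h1 := simS_update b.1 j ⟨K - simS b.1, by omega⟩
  have h2 : simS b.1 ≤ K := b.2.2
  have h3 : (b.1 j : ℕ) ≤ K := by have := (b.1 j).2; omega
  have h4 : (b.1 j : ℕ) ≤ simS b.1 := by
    unfold simS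
    exact Finset.single_le_sum (f := fun i => ((b.1 i : Fin (K + 1)) : ℕ)) (fun _ _ => Nat.zero_le _) (Finset.mem_univ j)
  change K - simS (Function.update b.1 j ⟨K - simS b.1, by omega⟩) = _
  simp only at h1
  omega

theorem simF_inv {v K : ℕ} {j1 : Fin v} (j : Fin v) (hj : j ≠ j1) :
    Function.Involutive (simF (K := K) j hj) := by
  intro b
  apply Subtype.ext
  have h1 := simF_S j hj b
  change Function.update (Function.update b.1 j _) j ⟨K - simS (simF j hj b).1, _⟩ = b.1
  rw [Function.update_idem]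
  have h2 : (⟨K - simS (simF j hj b).1, by omega⟩ : Fin (K + 1)) = b.1 j := Fin.ext h1
  rw [h2, Function.update_eq_self]

theorem st_SIM : ST_SIM := by
  classical
  intro v K j1
  obtain ⟨R, hR⟩ : ∃ R : ℕ, R = ∑ b : Sb v K j1, (K - simS b.1) := ⟨_, rfl⟩
  have hcol : ∀ j, j ≠ j1 → ∑ b : Sb v K j1, (b.1 j : ℕ) = R := by
    intro j hj
    rw [hR]
    apply Fintype.sum_equiv (simF_inv (K := K) j hj).toPerm
    intro b
    exact (simF_S j hj b).symm
  have h0 : ∑ b : Sb v K j1, (b.1 j1 : ℕ) = 0 := by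
    apply Finset.sum_eq_zero
    intro b _
    exact b.2.1
  have htot : ∑ b : Sb v K j1, simS b.1 = (v - 1) * R := by
    unfold simS
    rw [Finset.sum_comm, ← Finset.add_sum_erase _ _ (Finset.mem_univ j1), h0, zero_add,
      Finset.sum_congr rfl (fun j hj => hcol j (Finset.ne_of_mem_erase hj)), Finset.sum_const,
      Finset.card_erase_of_mem (Finset.mem_univ _), Finset.card_univ, Fintype.card_fin, smul_eq_mul]
  have hK : K * Fintype.card (Sb v K j1) = v * R := by
    have h1 : K * Fintype.card (Sb v K j1) = ∑ b : Sb v K j1, (simS b.1 + (K - simS b.1)) := by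
      rw [Finset.sum_congr rfl (fun b _ => Nat.add_sub_of_le (show simS b.1 ≤ K from b.2.2)),
        Finset.sum_const, Finset.card_univ, smul_eq_mul, mul_comm]
    rw [h1, Finset.sum_add_distrib, htot, ← hR]
    obtain ⟨w, hw⟩ : ∃ w, v = w + 1 := ⟨v - 1, by have := j1.2; omega⟩
    have : v - 1 = w := by omega
    rw [this, hw]; ring
  rw [hK]
  apply Nat.mul_le_mul_left
  have hcard : Fintype.card (Σ b : Sb v K j1, Fin (K - simS b.1)) = R := by
    rw [Fintype.card_sigma, hR]
    apply Finset.sum_congr rfl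
    intro b _
    exact Fintype.card_fin _
  rw [← hcard]
  let f : (Σ b : Sb v K j1, Fin (K - simS b.1)) → Sx v K := fun z =>
    ⟨Function.update z.1.1 j1 ⟨z.2.1, by have := z.2.2; omega⟩, by
      have h1 := simS_update z.1.1 j1 ⟨z.2.1, by have := z.2.2; omega⟩
      have h2 := z.2.2
      have h3 : (z.1.1 j1 : ℕ) = 0 := z.1.2.1
      change simS _ ≤ K
      simp only at h1
      omega⟩
  apply Fintype.card_le_of_injective f
  rintro ⟨b, i⟩ ⟨b', i'⟩ h
  have h1 : Function.update b.1 j1 ⟨i.1, by have := i.2; omega⟩ =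
      Function.update b'.1 j1 ⟨i'.1, by have := i'.2; omega⟩ := congrArg Subtype.val h
  have h2 : b = b' := by
    apply Subtype.ext
    funext x
    by_cases hx : x = j1
    · subst hx
      apply Fin.ext
      rw [b.2.1, b'.2.1]
    · have := congrFun h1 x
      rw [Function.update_of_ne hx, Function.update_of_ne hx] at this
      exact this
  subst h2
  have h3 := congrFun h1 j1
  rw [Function.update_self, Function.update_self] at h3
  have h4 : i.1 = i'.1 := congrArg (fun z : Fin (K + 1) => (z : ℕ)) h3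
  have h5 : i = i' := Fin.ext h4
  rw [h5]

end Pool.Helper99.SZ
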